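import Pool.Agent.H36.SMTI

open Pool.Agent.H38.NP Pool.Agent.H36.SMTI

theorem Pool.Agent.Results.MP_7af251_lc.Hard.result :
    NPHard (lang fun I : Inst => ¬ ∃ M, ManOptimal I M) :=
  hard.npHard fun _ _ => Iff.rfl
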